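import Pool.Agent.W8.ST.Stm

/-! Project ST (owner helper8): part LOp, linear operators on the space of solutions. -/

namespace Pool.Agent.W471.ST

open Pool.Agent.W8.ST

theorem LOp_proof : LOp := by
  intro hE lam sig T hT hTeq hTadd hTsmul
  have hmem := hE.1 lam sig
  have hch : ∀ v : E lam sig, ∃ u, Sol lam sig u ∧
      ∀ x : strip 3, (v : strip 3 → ℝ) x = u x := fun v => (hmem _).1 v.2
  choose U hU hUx using hch
  have key : ∀ (v : E lam sig) (u : V 4 → ℝ), Sol lam sig u →
      (∀ x : strip 3, (v : strip 3 → ℝ) x = u x) → ∀ x ∈ strip 3, T (U v) x = T u x := by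
    intro v u hu hvu x hx
    exact hTeq _ _ (hU v) hu (fun y hy => by
      have h1 := hUx v ⟨y, hy⟩
      have h2 := hvu ⟨y, hy⟩
      rw [h1] at h2
      exact h2) x hx
  refine ⟨{ toFun := fun v => ⟨fun x => T (U v) x,
              (hmem _).2 ⟨T (U v), hT _ (hU v), fun x => rfl⟩⟩
            map_add' := ?_
            map_smul' := ?_ }, ?_⟩
  · intro v w
    apply Subtype.ext
    funext x
    have h1 := key (v + w) (U v + U w) (hE.2.1 lam sig _ _ (hU v) (hU w)) (fun y => by
      show (v : strip 3 → ℝ) y + (w : strip 3 → ℝ) y = U v y + U w y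
      rw [hUx v y, hUx w y]) x x.2
    have h2 := hTadd _ _ (hU v) (hU w) x x.2
    show T (U (v + w)) x = T (U v) x + T (U w) x
    rw [h1, h2]
  · intro c v
    apply Subtype.ext
    funext x
    have h1 := key (c • v) (c • U v) (hE.2.2 lam sig c _ (hU v)) (fun y => by
      show c * (v : strip 3 → ℝ) y = c * U v y
      rw [hUx v y]) x x.2
    have h2 := hTsmul c _ (hU v) x x.2
    show T (U (c • v)) x = c * T (U v) x
    rw [h1, h2]
  · intro v u hu hvu x
    exact key v u hu hvu x x.2

end Pool.Agent.W471.ST
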